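import Mathlib
import Pool.Agent.V11310.CL.Open
import Pool.Agent.H248R5.Gen
import Pool.Agent.H248R6.Dim

set_option autoImplicit false

/-!
# The closure of the known classes under collisions: nonspecial, smooth one degree above

`Reached N0 d w` (`Pool.Agent.V11310.CL.Reached`): the multiset of the multiplicities `w` belongs, in
degree `d`, to the smallest class of multisets of multiplicities with one of the two signs (no curves,
independent conditions) which contains the comparable, the large and the good classes (`Base`) and is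
closed under collisions (a point of multiplicity `μ` may be replaced by points `M'` if `M'` is in the
class in degree `μ - 1`), quadratic transformations, doubling (four points of multiplicity `m` for one
point of the multiplicities `2 m` and `2 m + 1`), adding or removing points and changing the degree.

If `(d; v)` is reached, or (`n ≥ 4`) finitely many reflections carry it to a standard class which is
reached, then for general points of the complex projective plane `|d H - ∑ v i E i|` is nonspecial and,
if `∑ (v i + 1).choose 2 ≤ (d + 2).choose 2`, for all multiplicities `u i ≤ v i` the system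
`|d H - ∑ u i E i|` is nonspecial and the general member of `|(d + 1) H - ∑ u i E i|` is a smooth
curve on the blow-up.
-/

namespace Pool.Agent.Results.MP_0421d9_ag.CollisionClosureSmooth

open Pool.Agent Finset Pool.Agent.H248R5 Pool.Agent.H248R6 Pool.Agent.V11310.CL

theorem surj_of {n : ℕ} {w u : Fin n → ℕ} {P : Fin n → Fin 2 → ℂ} {d : ℕ}
    (h : H932R3.ExpDim ℂ w P d) (hd : ∑ i, (w i + 1).choose 2 ≤ (d + 2).choose 2)
    (hu : ∀ i, u i ≤ w i) : Function.Surjective (ev u P d) := by
  refine surj_mono hu (surj_of_ind ?_)
  have h1 : Module.finrank ℂ ↥(forms w P d) = (d + 2).choose 2 - ∑ i, (w i + 1).choose 2 := h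
  omega

theorem result : ∃ N0 : ℕ, ∀ (n d : ℕ) (v : Fin n → ℕ),
    (Base N0 d v → Reached N0 d v) ∧
    (Reached N0 d v ∨ (4 ≤ n ∧ Covered N0 d v) →
      ∃ F : MvPolynomial (Fin n × Fin 2) ℂ, F ≠ 0 ∧
        ∀ P : Fin n → Fin 2 → ℂ,
          MvPolynomial.eval (fun ij : Fin n × Fin 2 => P ij.1 ij.2) F ≠ 0 →
            Module.finrank ℂ ↥(forms v P d) = (d + 2).choose 2 - ∑ i, (v i + 1).choose 2 ∧
            (∑ i, (v i + 1).choose 2 ≤ (d + 2).choose 2 → ∀ u : Fin n → ℕ, (∀ i, u i ≤ v i) →
              Module.finrank ℂ ↥(forms u P d) = (d + 2).choose 2 - ∑ i, (u i + 1).choose 2 ∧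
              GeneralMember (forms u P (d + 1)) (SmoothMember u P))) := by
  classical
  obtain ⟨N0, hN0⟩ := Pool.Agent.Y939.NC.reg_exp
  refine ⟨N0, fun n d v => ⟨reached_of_base, fun hv => ?_⟩⟩
  obtain ⟨F, hF, hF'⟩ := Pool.Agent.TH442.NF.to_open (d := d) (w := v)
    fun {K} _ _ P hP => hv.elim (fun h => reached_exp hN0 h hP)
      fun h => covered_exp hN0 h.1 h.2 hP
  refine ⟨F.map (algebraMap ℚ ℂ) * disc ℂ n, mul_ne_zero (H932R3.map_ne_zero_of hF)
    (disc_ne ℂ n), fun P hP => ?_⟩
  rw [map_mul, MvPolynomial.eval_map] at hP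
  have h3 := hF' (L := ℂ) P (left_ne_zero_of_mul hP)
  refine ⟨h3, fun hd u hu => ⟨?_, ?_⟩⟩
  · have h4 := finrank_of_surj (surj_of h3 hd hu)
    omega
  · exact general_smooth (inj_of_disc (right_ne_zero_of_mul hP))
      (finrank_of_surj (surj_of h3 hd hu)).le

end Pool.Agent.Results.MP_0421d9_ag.CollisionClosureSmooth
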