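import Mathlib
import Pool.Agent.V11263.SH.Comp
import Pool.Agent.TH167.SH.Segre
import Pool.Agent.H248R5.Gen
import Pool.Agent.H248R6.Dim

set_option autoImplicit false

/-!
# Reduced members and smooth general members: classes comparable with a regular vector, Weyl orbits

Let `P` be `n ≥ 4` very general points of the complex plane (the `2 n` affine coordinates are
algebraically independent over `ℚ`). A class `(d; w)` is settled if it is comparable with a regular
vector (`Comparable`), or if finitely many reflections in classes `H - E_i - E_j - E_k` carry it to a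
standard class which is comparable, large or good (`Known`).

(1) Every settled class is nonspecial. (2) If `(d - 1; w)` is settled and
`∑ (w i + 1).choose 2 ≤ (d + 1).choose 2`, then for all multiplicities `u i ≤ w i` the system
`|d H - ∑ u i E i|` is nonspecial and its general member is a smooth curve on the blow-up. (3) If any
system `|d H - ∑ w i E i|` has a member given by a squarefree form (in particular if its general member
is reduced), then it is nonspecial, or after the removal of disjoint `(-1)`-curves, each taken once, and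
finitely many quadratic transformations it is a special standard class of the same dimension which is
neither comparable nor large nor good.

A vector `v` of multiplicities on `k` points is regular in degree `d` (`RegularAt`) if it is one of
the vectors `Regular` of `Pool.Agent.Y939.NC`, or `k ≥ 10`, all its entries are `m` or `m + 1`, and
`m + 1 ≤ k - 6 √k + 11` or `k` is a square or `2 d + 3 - √k - 2 (∑ v) / √k` is outside an interval
around zero of length less than two, or `k ≥ 10` and `(d; v)` is in one of the windows `Window`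
(arbitrary entries). A class `(d; w)` is `Comparable` if, for a vector `v` regular in degree `d` on
some `k` of the points, either `w ≥ v` there and `χ (d; v) ≤ 0` (no condition at the other points), or
`w ≤ v` there, `w ≤ 1` at the other points, and `χ (d; v) ≥ 0` or `w = v` there.
-/

namespace Pool.Agent.Results.MP_0421d9_ag.ReducedComparableForms

open MvPolynomial Pool.Agent.TH167.SHDefs
open Pool.Agent.Y536.SH (Standard)
open Pool.Agent.V11263.SH (Comparable Known)
open Pool.Agent.H248R5 (GeneralMember SmoothMember)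

/-- The linear system has the expected dimension. -/
def Nonspecial {n : ℕ} (P : Fin n → Fin 2 → ℂ) (d : ℕ) (w : Fin n → ℕ) : Prop :=
  dimL P d w = max (virtdim d w) (-1)

/-- The reflection of the class `a = (d; w)`, `d H - ∑ w l E l`, in the class
`H - E (i 0) - E (i 1) - E (i 2)`: with `δ = d - w (i 0) - w (i 1) - w (i 2)`, the numbers
`d`, `w (i 0)`, `w (i 1)`, `w (i 2)` are increased by `δ`. -/
def reflect {n : ℕ} (i : Fin 3 → Fin n) (a : ℤ × (Fin n → ℤ)) : ℤ × (Fin n → ℤ) :=
  (a.1 + (a.1 - a.2 (i 0) - a.2 (i 1) - a.2 (i 2)),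
    fun l => a.2 l + if l = i 0 ∨ l = i 1 ∨ l = i 2 then a.1 - a.2 (i 0) - a.2 (i 1) - a.2 (i 2)
      else 0)

/-- Finitely many reflections carry `(d; w)` to `(d'; w')`. -/
def Carries {n : ℕ} (d : ℕ) (w : Fin n → ℕ) (d' : ℕ) (w' : Fin n → ℕ) : Prop :=
  Relation.ReflTransGen
    (fun a b : ℤ × (Fin n → ℤ) => ∃ i : Fin 3 → Fin n, Function.Injective i ∧ b = reflect i a)
    ((d : ℤ), fun l => (w l : ℤ)) ((d' : ℤ), fun l => (w' l : ℤ))

/-- The class `(d; w)` is comparable with a regular vector, or finitely many reflections carry it to a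
standard class which is comparable, large or good. -/
def Settled (N0 d : ℕ) {n : ℕ} (w : Fin n → ℕ) : Prop :=
  Comparable N0 d w ∨
    ∃ (d' : ℕ) (w' : Fin n → ℕ), Carries d w d' w' ∧ Standard d' w' ∧ Known N0 d' w'

theorem nonspecial_of {n : ℕ} {P : Fin n → Fin 2 → ℂ} {d : ℕ} {w : Fin n → ℕ}
    (h : Pool.Agent.H932R3.ExpDim ℂ w P d) : Nonspecial P d w := by
  have h1 : Module.finrank ℂ ↥(sys P d w) =
      Nat.choose (d + 2) 2 - ∑ i, Nat.choose (w i + 1) 2 := h
  have h2 : ∑ i, ((w i + 1).choose 2 : ℤ) = ((∑ i, Nat.choose (w i + 1) 2 : ℕ) : ℤ) := by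
    push_cast
    rfl
  unfold Nonspecial dimL virtdim
  rw [h1, h2]
  omega

/-- Independent conditions in degree `e` are independent in degree `e + 1`. -/
theorem surj_succ {n : ℕ} {u : Fin n → ℕ} {P : Fin n → Fin 2 → ℂ} {e : ℕ}
    (h : Function.Surjective (Pool.Agent.H248R5.ev u P e)) :
    Function.Surjective (Pool.Agent.H248R5.ev u P (e + 1)) := by
  intro y
  obtain ⟨G, hG⟩ := h y
  refine ⟨⟨X 2 * (G : MvPolynomial (Fin 3) ℂ), ?_⟩, ?_⟩
  · rw [mem_homogeneousSubmodule]
    have h1 := (isHomogeneous_X ℂ (2 : Fin 3)).mul ((mem_homogeneousSubmodule _ _).1 G.2)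
    rwa [add_comm 1 e] at h1
  · rw [← hG]
    funext i
    rw [Pool.Agent.H248R5.ev_apply, Pool.Agent.H248R5.ev_apply]
    change Ideal.Quotient.mk _ (Pool.Agent.H248R5.tau (P i) (X 2 * (G : MvPolynomial (Fin 3) ℂ))) = _
    rw [map_mul, Pool.Agent.H248R5.tau_X2, one_mul]

/-- There is `N0` such that at `n ≥ 4` very general points of the complex plane: (1) settled classes are
nonspecial; (2) if `(e; w)` is settled and `χ (e; w) ≥ 0`, then for all `u ≤ w` the class `(e + 1; u)` is
nonspecial and its general member is smooth on the blow-up; (3) a system with a squarefree member is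
nonspecial, or its reduction is a special standard class of the same dimension which is neither
comparable nor large nor good. -/
theorem result : ∃ N0 : ℕ, ∀ n : ℕ, 4 ≤ n → ∀ P : Fin n → Fin 2 → ℂ,
    AlgebraicIndependent ℚ (fun ij : Fin n × Fin 2 => P ij.1 ij.2) →
    ∀ (d : ℕ) (w : Fin n → ℕ),
      (Settled N0 d w → Nonspecial P d w) ∧
      (∀ e : ℕ, d = e + 1 → Settled N0 e w → ∑ i, (w i + 1).choose 2 ≤ (e + 2).choose 2 →
        ∀ u : Fin n → ℕ, (∀ i, u i ≤ w i) →
          Nonspecial P d u ∧ GeneralMember (sys P d u) (SmoothMember u P)) ∧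
      ((∃ f ∈ sys P d w, Squarefree f) → Nonspecial P d w ∨
        ∃ (d'' : ℕ) (w'' : Fin n → ℕ) (k : ℕ) (G : Fin k → MvPolynomial (Fin 3) ℂ)
          (e : Fin k → ℕ) (u : Fin k → Fin n → ℕ) (d' : ℕ) (w' : Fin n → ℕ),
          Decomp P d w d'' w'' G e u (fun _ => 1) ∧
          Relation.ReflTransGen Quadratic (d'', w'') (d', w') ∧ Standard d' w' ∧
          Special P d' w' ∧ dimL P d' w' = dimL P d w ∧ ¬ Known N0 d' w') := by
  obtain ⟨N0, hN0⟩ := Pool.Agent.Y939.NC.reg_exp
  refine ⟨N0, fun n hn P hP d w => ?_⟩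
  have key : ∀ (e : ℕ) (v : Fin n → ℕ), Settled N0 e v → Pool.Agent.H932R3.ExpDim ℂ v P e := by
    rintro e v (h | ⟨d', w', hc, hs, hG⟩)
    · exact Pool.Agent.V11263.SH.comparable_exp hN0 h hP
    · exact Pool.Agent.TH442.NF.up_enef hP hc (Pool.Agent.TH442.NF.enef_of_std hn P hs)
        (Pool.Agent.V11263.SH.known_exp hN0 hn hs hG hP)
  have hinj : Function.Injective P := Pool.Agent.TH167.SH.inj_of_alg hP
  refine ⟨fun h => nonspecial_of (key d w h), ?_, ?_⟩
  · rintro e rfl hset hle u hu
    have h1 : Module.finrank ℂ ↥(Pool.Agent.H248R5.forms w P e) =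
        (e + 2).choose 2 - ∑ i, (w i + 1).choose 2 := key e w hset
    have hS : Function.Surjective (Pool.Agent.H248R5.ev u P e) :=
      Pool.Agent.H248R6.surj_mono hu (Pool.Agent.H248R5.surj_of_ind (by omega))
    have h2 := Pool.Agent.H248R6.finrank_of_surj hS
    have h3 := Pool.Agent.H248R6.finrank_of_surj (surj_succ hS)
    refine ⟨nonspecial_of ?_, Pool.Agent.H248R5.general_smooth hinj h2.le⟩
    have h4 : Module.finrank ℂ ↥(Pool.Agent.H248R5.forms u P (e + 1)) =
      (e + 1 + 2).choose 2 - ∑ i, (u i + 1).choose 2 := by omega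
    exact h4
  · rintro ⟨f, hf, hsq⟩
    by_cases hns : Nonspecial P d w
    · exact Or.inl hns
    right
    have hno : ∀ (G : MvPolynomial (Fin 3) ℂ) (e : ℕ) (u : Fin n → ℕ), MinusOne P G e u →
        ¬ inter d w e u ≤ -2 := by
      intro G e u h3 h4
      have h5 := Pool.Agent.TH167.SH.curve_sq_dvd hinj h3 h4 hf
      rw [pow_two] at h5
      exact h3.curve.irreducible.not_isUnit (hsq G h5)
    obtain ⟨r, rfl⟩ : ∃ r, n = r + 4 := ⟨n - 4, by omega⟩
    obtain ⟨F, hF, hF'⟩ := Pool.Agent.Y536.SH.hh_full
      (Q := fun d' w' => Known N0 d' w')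
      (fun hP d1 w1 hr hG => Pool.Agent.V11263.SH.known_exp hN0 hn hr hG hP) d w
    have hsp : Pool.Agent.TH167.SH.Special P d w := (Pool.Agent.TH167.SH.special_conv P d w).1 hns
    rcases hF' ℂ P (Pool.Agent.TH167.SH.evP_ne hP hF) hsp with
      h | ⟨d', w', k, C, e, u, N, d1, w1, h1, h2, h3, h4, h5, h6⟩
    · exfalso
      obtain ⟨G, e, u, g3, g4⟩ :=
        Pool.Agent.TH167.SH.mspecial_curve ((Pool.Agent.TH167.SH.mspecial_conv P d w).2 h)
      exact hno G e u g3 g4
    · have hN1 : N = fun _ => 1 := by
        funext a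
        have g1 := h1.pos a
        have g2 := hno (C a) (e a) (u a) (Pool.Agent.TH167.SH.minusOne_iff.2 (h1.exc a))
        rw [Pool.Agent.TH167.SH.inter_eq, h1.neg a] at g2
        omega
      subst hN1
      refine ⟨d', w', k, C, e, u, d1, w1, Pool.Agent.TH167.SH.decomp_iff.2 h1,
        Pool.Agent.TH167.SH.chain_conv h2, h3, (Pool.Agent.TH167.SH.special_conv P _ _).2 h4, ?_, h6⟩
      unfold dimL
      rw [Pool.Agent.TH167.SH.sys_eq, Pool.Agent.TH167.SH.sys_eq, h5]

end Pool.Agent.Results.MP_0421d9_ag.ReducedComparableForms
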