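import Pool.Agent.Results.MP_8707bd_ag.PrimeMultiplicities
import Pool.Agent.Results.MP_0421d9_ag.AllNumbersExactSmooth

/-!
# Smooth general members in ALL degrees, for almost all multiplicities in thin sequences

Let `n ≥ 37`. The hand-in `AllNumbersExactSmooth` of this problem shows, for general points and
`m ≥ n / 4`: all systems `|d H - m ∑ E i|` are nonspecial, and the general member of the system is
smooth if it is not empty, except possibly if `|2 d + 3 - √n (2 m + 1)| < 4 / √n` (at most one degree
`d` for every `m`). Here it is shown that for non-square `n` there is no exceptional degree for all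
`m` outside a set of upper density at most `4 / √n`, and that the same bound holds for the proportion
of the exceptional terms of every sequence of multiplicities whose multiples by any irrational number
have exponential sums `o(N)`: in particular for the sequence of the primes and for the values of the
nonconstant polynomials with integral coefficients.
-/

set_option autoImplicit false

open Filter Topology Finset

namespace Pool.Agent.Results.MP_0421d9_ag.SmoothForAllDegrees

open Pool.Agent.H248R5 Pool.Agent.H248R6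

/-- the multiples of the sequence by every irrational number have exponential sums `o(N)` -/
def Equidistributed (s : ℕ → ℕ) : Prop := ∀ t : ℝ, Irrational t →
  Tendsto (fun N : ℕ => ‖∑ k ∈ range N, Complex.exp (2 * Real.pi * Complex.I * (t * (s k : ℝ) : ℝ))‖ / N)
    atTop (𝓝 0)

/-- For general points `P` (outside one hypersurface for all degrees) and EVERY degree `d` the system
`|d H - m ∑ E i|` is nonspecial, and its general member is smooth if it is not empty. -/
def AllSmooth (n m : ℕ) : Prop :=
  ∃ F : MvPolynomial (Fin n × Fin 2) ℚ, F ≠ 0 ∧ ∀ P : Fin n → Fin 2 → ℂ,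
    MvPolynomial.aeval (fun ij : Fin n × Fin 2 => P ij.1 ij.2) F ≠ 0 →
    ∀ d : ℕ, Module.finrank ℂ ↥(forms (fun _ => m) P d) =
        (d + 2).choose 2 - n * (m + 1).choose 2 ∧
      (forms (fun _ => m) P d ≠ ⊥ →
        GeneralMember (forms (fun _ => m) P d) (SmoothMember (fun _ => m) P))

/-- the number of the terms `m = s k ≥ n / 4`, `k < N`, of the sequence which do not have the property
`AllSmooth` -/
noncomputable def exceptions (n : ℕ) (s : ℕ → ℕ) (N : ℕ) : ℕ :=
  Set.ncard {k : ℕ | k < N ∧ n ≤ 4 * s k ∧ ¬ AllSmooth n (s k)}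

lemma exists_window {n m : ℕ} (hn : 37 ≤ n) (hm : n ≤ 4 * m) (hb : ¬ AllSmooth n m) :
    ∃ d : ℕ, -(4 / Real.sqrt n) ≤ 2 * (d : ℝ) + 3 - Real.sqrt n * (2 * m + 1) ∧
      2 * (d : ℝ) + 3 - Real.sqrt n * (2 * m + 1) ≤ 4 / Real.sqrt n := by
  by_contra hcon
  push Not at hcon
  apply hb
  have hnR : (37 : ℝ) ≤ n := by exact_mod_cast hn
  have hs6 : 6 ≤ Real.sqrt n := Real.le_sqrt_of_sq_le (by norm_num; linarith)
  have hs0 : 0 < Real.sqrt n := by linarith
  have hss : Real.sqrt n * Real.sqrt n = n := Real.mul_self_sqrt (Nat.cast_nonneg n)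
  have h46 : 4 / Real.sqrt n ≤ 4 / 6 := div_le_div_of_nonneg_left (by norm_num) (by norm_num) hs6
  have hm0 : 0 < m := by omega
  obtain ⟨F, hF, hF'⟩ := AllNumbersExactSmooth.result (n := n) hm0 (ε := 4 / Real.sqrt n) le_rfl
    (by linarith) (Or.inl hn)
  refine ⟨F, hF, fun P hP d => ?_⟩
  obtain ⟨h1, -, h3⟩ := hF' P hP d (Or.inl hn)
  refine ⟨h1, fun hne => h3 ?_ ?_ hne⟩
  · rw [div_mul_eq_mul_div, le_div_iff₀ hs0, hss]
    exact_mod_cast hm
  · rw [le_abs]
    rcases le_or_gt (-(4 / Real.sqrt n)) (2 * (d : ℝ) + 3 - Real.sqrt n * (2 * m + 1)) with h4 | h4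
    · exact Or.inl (hcon d h4).le
    · right
      linarith

/-- **Main theorem.** (1) Let `s` be an equidistributed sequence and let `n ≥ 37` not be a square
(`4 / √n < 1`). For all but at most `(4 / √n + δ) N` of the first `N` terms `m ≥ n / 4` of the sequence,
for general points and for EVERY degree `d`, the system `|d H - m ∑ E i|` is nonspecial and its general
member is smooth if it is not empty. (2) The sequence of all integers, the sequence of the primes and
the sequences of the values of nonconstant polynomials with integral coefficients (with values `≥ 0`)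
are equidistributed. -/
theorem result :
    (∀ s : ℕ → ℕ, Equidistributed s → ∀ n : ℕ, 37 ≤ n → ¬ IsSquare n → 4 / Real.sqrt n < 1 ∧
      ∀ δ : ℝ, 0 < δ → ∀ᶠ N : ℕ in atTop, (exceptions n s N : ℝ) ≤ (4 / Real.sqrt n + δ) * N) ∧
    Equidistributed (fun k => k) ∧ Equidistributed (Nat.nth Nat.Prime) ∧
    (∀ q : Polynomial ℤ, 0 < q.natDegree → ∀ s : ℕ → ℕ, (∀ k : ℕ, (s k : ℤ) = q.eval (k : ℤ)) →
      Equidistributed s) := by
  classical
  refine ⟨fun s hs n hn hsq => ?_, MP_8707bd_ag.PrimeMultiplicities.good_polynomial Polynomial.X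
    (by rw [Polynomial.natDegree_X]; exact one_pos) _ (fun k => by rw [Polynomial.eval_X]),
    MP_8707bd_ag.PrimeMultiplicities.good_primes,
    MP_8707bd_ag.PrimeMultiplicities.good_polynomial⟩
  have hnR : (37 : ℝ) ≤ n := by exact_mod_cast hn
  have hs6 : 6 ≤ Real.sqrt n := Real.le_sqrt_of_sq_le (by norm_num; linarith)
  have hs0 : 0 < Real.sqrt n := by linarith
  have h46 : 4 / Real.sqrt n ≤ 4 / 6 := div_le_div_of_nonneg_left (by norm_num) (by norm_num) hs6
  set ε : ℝ := 4 / Real.sqrt n with hε
  have hε0 : 0 < ε := by positivity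
  refine ⟨by linarith, fun δ hδ => ?_⟩
  have hirr : Irrational (Real.sqrt n) := irrational_sqrt_natCast_iff.2 hsq
  have h1 := Pool.Agent.H534R3.UDist.upper (fun k => Real.sqrt n * (s k : ℝ) +
    ((Real.sqrt n - 3) / 2 + ε / 2)) (MP_8707bd_ag.PrimeMultiplicities.weyl_of (s := s) hs hirr _) 0
      (ε + δ / 2) (δ / 2) (by linarith) (by linarith)
  filter_upwards [h1] with N hN
  have h2 : exceptions n s N ≤ Pool.Agent.H534R3.UDist.cnt (fun k => Real.sqrt n * (s k : ℝ) +
      ((Real.sqrt n - 3) / 2 + ε / 2)) 0 (ε + δ / 2) N := by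
    unfold exceptions Pool.Agent.H534R3.UDist.cnt
    rw [← Set.ncard_coe_finset]
    refine Set.ncard_le_ncard (fun k hk => ?_) (Finset.finite_toSet _)
    obtain ⟨hk1, hk2, hk3⟩ := hk
    rw [Finset.mem_coe, Finset.mem_filter, Finset.mem_range]
    refine ⟨hk1, Int.fract_nonneg _, ?_⟩
    obtain ⟨d, g1, g2⟩ := exists_window hn hk2 hk3
    rw [← hε] at g1 g2
    have h3 : 0 ≤ Real.sqrt n * (s k : ℝ) + ((Real.sqrt n - 3) / 2 + ε / 2) - d := by linarith
    have h4 : Real.sqrt n * (s k : ℝ) + ((Real.sqrt n - 3) / 2 + ε / 2) - d ≤ ε := by linarith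
    have h5 : Int.fract (Real.sqrt n * (s k : ℝ) + ((Real.sqrt n - 3) / 2 + ε / 2)) =
        Real.sqrt n * (s k : ℝ) + ((Real.sqrt n - 3) / 2 + ε / 2) - d := by
      rw [Int.fract_eq_iff]
      exact ⟨h3, by linarith, (d : ℤ), by push_cast; ring⟩
    rw [h5]
    linarith
  calc (exceptions n s N : ℝ) ≤ _ := by exact_mod_cast h2
    _ ≤ _ := hN
    _ = (ε + δ) * N := by ring

end Pool.Agent.Results.MP_0421d9_ag.SmoothForAllDegrees
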